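import Pool.Agent.H30.AV.Targets3

/-!
# MP_70ba79_ag, board `avr_modules`, row TAN: tangent vectors of an irreducible variety
-/

set_option autoImplicit false

namespace Pool.Agent.H92.AV

open MvPolynomial SC Pool.Agent.H27.LV Pool.Agent.H30.AV

/-- derivative of a value -/
theorem der_aeval {k K τ : Type} [Field k] [Field K] [Algebra k K] [Fintype τ]
    (D : Derivation k K K) (v : τ → K) (c : MvPolynomial τ k) :
    D (aeval v c) = ∑ b, aeval v (pderiv b c) * D (v b) := by
  classical
  induction c using MvPolynomial.induction_on with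
  | C a => simp
  | add p q hp hq =>
    simp only [map_add, hp, hq, add_mul, Finset.sum_add_distrib]
  | mul_X p i hp =>
    simp only [map_mul, aeval_X, Derivation.leibniz, hp, smul_eq_mul, pderiv_X, map_add, add_mul,
      Finset.sum_add_distrib, Pi.single_apply, apply_ite, map_one, map_zero]
    have h1 : ∑ b, aeval v p * (if b = i then (1 : K) else 0) * D (v b) = aeval v p * D (v i) := by
      rw [Finset.sum_eq_single i]
      · simp
      · intro b _ hb; simp [hb]
      · simp
    have h2 : ∑ b, v i * (aeval v (pderiv b p)) * D (v b) =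
        v i * ∑ b, aeval v (pderiv b p) * D (v b) := by
      rw [Finset.mul_sum]
      exact Finset.sum_congr rfl fun b _ => by ring
    rw [h2]
    congr 1
    rw [← h1]
    refine Finset.sum_congr rfl fun b _ => ?_
    by_cases hb : b = i
    · subst hb; simp
    · simp [hb, Ne.symm hb]

/-- value of a polynomial in one variable with coefficients in `k[s]` -/
noncomputable def E {k s : Type} [Field k] {B : Type} [CommRing B] [Algebra k B] {n : ℕ}
    (σ : s → Fin n) (j : Fin n) (y : Fin n → B) (h : Polynomial (MvPolynomial s k)) : B :=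
  Polynomial.eval₂ (aeval (fun b => y (σ b)) : MvPolynomial s k →ₐ[k] B).toRingHom (y j) h

theorem E_map {k s : Type} [Field k] {B B' : Type} [CommRing B] [Algebra k B] [CommRing B']
    [Algebra k B'] {n : ℕ} (σ : s → Fin n) (j : Fin n) (y : Fin n → B) (g : B →ₐ[k] B')
    (h : Polynomial (MvPolynomial s k)) : g (E σ j y h) = E σ j (fun i => g (y i)) h := by
  unfold E
  rw [← AlgHom.coe_toRingHom g, Polynomial.hom_eval₂]
  congr 1
  refine MvPolynomial.ringHom_ext ?_ ?_
  · intro r; simp
  · intro r; simp

/-- derivative of `E` -/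
theorem der_E {k s : Type} [Field k] [Fintype s] {n : ℕ} (σ : s → Fin n) (j : Fin n)
    (h : Polynomial (MvPolynomial s k)) :
    ∃ g : s → Polynomial (MvPolynomial s k), ∀ (K : Type) [Field K] [Algebra k K]
      (D : Derivation k K K) (y : Fin n → K), D (E σ j y h) =
        E σ j y (Polynomial.derivative h) * D (y j) + ∑ b, E σ j y (g b) * D (y (σ b)) := by
  induction h using Polynomial.induction_on' with
  | add p q hp hq =>
    obtain ⟨g1, h1⟩ := hp
    obtain ⟨g2, h2⟩ := hq
    refine ⟨fun b => g1 b + g2 b, ?_⟩
    intro K _ _ D y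
    have h3 := h1 K D y
    have h4 := h2 K D y
    unfold E at h3 h4 ⊢
    simp only [Polynomial.eval₂_add, map_add, h3, h4, add_mul, Finset.sum_add_distrib]
    ring
  | monomial m c =>
    refine ⟨fun b => Polynomial.monomial m (pderiv b c), ?_⟩
    intro K _ _ D y
    unfold E
    simp only [Polynomial.derivative_monomial, Polynomial.eval₂_monomial, Derivation.leibniz,
      Derivation.leibniz_pow, smul_eq_mul, AlgHom.toRingHom_eq_coe, RingHom.coe_coe, der_aeval,
      map_mul, map_natCast, nsmul_eq_mul]
    rw [Finset.mul_sum]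
    congr 1
    · ring
    · refine Finset.sum_congr rfl fun b _ => by ring

/-- separability -/
theorem sep {R A : Type} [CommRing R] [IsDomain R] [CommRing A] [IsDomain A] [Algebra R A]
    [CharZero R] (hinj : Function.Injective (algebraMap R A)) (a : A) (ha : IsAlgebraic R a) :
    ∃ p : Polynomial R, Polynomial.aeval a p = 0 ∧
      Polynomial.aeval a (Polynomial.derivative p) ≠ 0 := by
  classical
  obtain ⟨p0, hp0, hp1⟩ := ha
  have hex : ∃ d : ℕ, ∃ p : Polynomial R, p ≠ 0 ∧ Polynomial.aeval a p = 0 ∧ p.natDegree = d :=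
    ⟨_, p0, hp0, hp1, rfl⟩
  obtain ⟨p, hp, hpa, hpd⟩ := Nat.find_spec hex
  refine ⟨p, hpa, ?_⟩
  intro hd
  have hpos : 0 < p.natDegree := by
    rcases Nat.eq_zero_or_pos p.natDegree with h | h
    · exfalso
      rw [Polynomial.eq_C_of_natDegree_eq_zero h, Polynomial.aeval_C] at hpa
      have h1 : p.coeff 0 = 0 := hinj (by rw [hpa, map_zero])
      apply hp
      rw [Polynomial.eq_C_of_natDegree_eq_zero h, h1, Polynomial.C_0]
    · exact h
  have h1 : Polynomial.derivative p ≠ 0 := by
    intro h
    have := Polynomial.derivative_eq_zero.mp h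
    omega
  have h2 : (Polynomial.derivative p).natDegree < Nat.find hex := by
    rw [← hpd]
    exact Polynomial.natDegree_derivative_lt hpos.ne'
  exact Nat.find_min hex h2 ⟨_, h1, hd, rfl⟩

/-- coordinates of a transcendence basis and separable relations -/
theorem rel {k : Type} [Field k] [CharZero k] {n : ℕ} (Q : Ideal (MvPolynomial (Fin n) k))
    [Q.IsPrime] : ∃ (s : Type) (_ : Fintype s) (σ : s → Fin n)
    (h : Fin n → Polynomial (MvPolynomial s k)),
    (Fintype.card s : Cardinal) = Algebra.trdeg k (MvPolynomial (Fin n) k ⧸ Q) ∧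
    (∀ j, E σ j X (h j) ∈ Q) ∧ ∀ j, E σ j X (Polynomial.derivative (h j)) ∉ Q := by
  classical
  set A := MvPolynomial (Fin n) k ⧸ Q with hA
  set yy : Fin n → A := fun j => Ideal.Quotient.mkₐ k Q (X j) with hyy
  have htop : Algebra.adjoin k (Set.range yy) = ⊤ := by
    have h1 : Algebra.adjoin k (Set.range (X : Fin n → MvPolynomial (Fin n) k)) = ⊤ :=
      MvPolynomial.adjoin_range_X
    have h2 := congrArg (Subalgebra.map (Ideal.Quotient.mkₐ k Q)) h1
    rw [AlgHom.map_adjoin, ← Set.range_comp, Algebra.map_top] at h2
    rw [show Set.range yy = Set.range ((Ideal.Quotient.mkₐ k Q) ∘ X) from rfl, h2]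
    exact (AlgHom.range_eq_top _).mpr (Ideal.Quotient.mkₐ_surjective k Q)
  have halg : Algebra.IsAlgebraic (Algebra.adjoin k (Set.range yy)) A := by
    rw [htop]
    exact ⟨fun a => isAlgebraic_algebraMap (R := (⊤ : Subalgebra k A)) ⟨a, trivial⟩⟩
  obtain ⟨t, hts, ht⟩ := exists_isTranscendenceBasis_subset (R := k) (Set.range yy)
  have hfin : t.Finite := (Set.finite_range yy).subset hts
  have : Fintype t := hfin.fintype
  choose σ hσ using fun b : t => hts b.2
  have hcard : (Fintype.card t : Cardinal) = Algebra.trdeg k A := by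
    rw [← ht.cardinalMk_eq_trdeg, Cardinal.mk_fintype]
  have hevA : ∀ (j : Fin n) (g : Polynomial (MvPolynomial t k)),
      Ideal.Quotient.mkₐ k Q (E σ j X g) = E σ j yy g := fun j g => E_map σ j X _ g
  let alg : Algebra (MvPolynomial t k) A := (aeval (fun b : t => yy (σ b))).toAlgebra
  have hval : (fun b : t => yy (σ b)) = fun b : t => (b : A) := funext hσ
  have hinj : Function.Injective (algebraMap (MvPolynomial t k) A) := by
    have h1 : AlgebraicIndependent k (fun b : t => (b : A)) := ht.1
    rw [← hval] at h1
    exact h1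
  have hj : ∀ j, ∃ p : Polynomial (MvPolynomial t k), Polynomial.aeval (yy j) p = 0 ∧
      Polynomial.aeval (yy j) (Polynomial.derivative p) ≠ 0 := by
    intro j
    refine sep hinj (yy j) ?_
    have := ht.isAlgebraic
    refine IsAlgebraic.of_ringHom_of_comp_eq
      (S := Algebra.adjoin k (Set.range (fun b : t => (b : A)))) (B := A)
      (ht.1.aevalEquiv : MvPolynomial t k →+* _) (RingHom.id A)
      (Algebra.IsAlgebraic.isAlgebraic (yy j)) ht.1.aevalEquiv.surjective
      Function.injective_id ?_
    refine RingHom.ext fun x => ?_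
    have h5 : ((ht.1.aevalEquiv x : Algebra.adjoin k (Set.range (fun b : t => (b : A)))) : A) =
        aeval (fun b : t => (b : A)) x := ht.1.algebraMap_aevalEquiv x
    have h6 : algebraMap (MvPolynomial t k) A x = aeval (fun b : t => yy (σ b)) x := rfl
    rw [hval] at h6
    simp only [RingHom.comp_apply]
    rw [h6, ← h5]
    rfl
  choose h h1 h2 using hj
  refine ⟨t, inferInstance, σ, h, hcard, ?_, ?_⟩
  · intro j
    have h3 := hevA j (h j)
    have h4 : E σ j yy (h j) = 0 := h1 j
    rw [h4] at h3
    exact Ideal.Quotient.eq_zero_iff_mem.mp h3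
  · intro j hm
    apply h2 j
    have h3 := hevA j (Polynomial.derivative (h j))
    have h4 : Ideal.Quotient.mkₐ k Q (E σ j X (Polynomial.derivative (h j))) = 0 :=
      Ideal.Quotient.eq_zero_iff_mem.mpr hm
    rw [h4] at h3
    exact h3.symm

theorem aeval_smul_homog {k K τ : Type} [Field k] [Field K] [Algebra k K] (c : K) (v : τ → K)
    {N : ℕ} {g : MvPolynomial τ k} (hg : g.IsHomogeneous N) :
    aeval (fun i => c * v i) g = c ^ N * aeval v g := by
  classical
  rw [MvPolynomial.aeval_def, MvPolynomial.aeval_def, MvPolynomial.eval₂_eq, MvPolynomial.eval₂_eq,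
    Finset.mul_sum]
  refine Finset.sum_congr rfl fun m hm => ?_
  have h1 : m.degree = N := by
    have := hg (MvPolynomial.mem_support_iff.mp hm)
    rw [← this, Finsupp.degree_eq_weight_one]
    rfl
  simp only [mul_pow, Finset.prod_mul_distrib, Finset.prod_pow_eq_pow_sum]
  rw [show ∑ i ∈ m.support, m i = N from h1]
  ring

/-- the kernel of a map of degree one is homogeneous -/
theorem ker_homog {k A τ s : Type} [Field k] [CommRing A] [Algebra k A] [Finite τ]
    (w : τ → MvPolynomial s A) (hw : ∀ i, (w i).IsHomogeneous 1) :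
    IsHom (RingHom.ker (aeval w : MvPolynomial τ k →ₐ[k] MvPolynomial s A)) := by
  classical
  intro g hg d
  rw [RingHom.mem_ker] at hg ⊢
  have h0 : ∀ N, ((aeval w) (homogeneousComponent N g)).IsHomogeneous N := by
    intro N
    have h1 := (homogeneousComponent_isHomogeneous N g).eval₂ (algebraMap k (MvPolynomial s A))
      w (n := 1) (fun r => ?_) hw
    · rw [one_mul] at h1
      exact h1
    · rw [IsScalarTower.algebraMap_apply k A (MvPolynomial s A), MvPolynomial.algebraMap_eq]
      exact isHomogeneous_C _ _
  have h1 : ∑ N ∈ Finset.range (g.totalDegree + 1),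
      (aeval w : MvPolynomial τ k →ₐ[k] MvPolynomial s A) (homogeneousComponent N g) = 0 := by
    rw [← map_sum, sum_homogeneousComponent, hg]
  have h2 := congrArg (homogeneousComponent d) h1
  rw [map_sum, map_zero] at h2
  by_cases hd : d ∈ Finset.range (g.totalDegree + 1)
  · rw [Finset.sum_eq_single d] at h2
    · rwa [homogeneousComponent_of_mem ((mem_homogeneousSubmodule _ _).mpr (h0 d)),
        if_pos rfl] at h2
    · intro N _ hN
      rw [homogeneousComponent_of_mem ((mem_homogeneousSubmodule _ _).mpr (h0 N)),
        if_neg (Ne.symm hN)]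
    · intro h; exact absurd hd h
  · rw [homogeneousComponent_eq_zero d g (by simpa using hd), map_zero]

theorem pf_TAN : T_TAN := by
  classical
  intro k _ _ n r Q hQ hr
  obtain ⟨s, hs, σ, h, hcard, hh1, hh2⟩ := rel Q
  choose G hG using fun j => der_E σ j (h j)
  set A := MvPolynomial (Fin n) k ⧸ Q with hA
  set F : Fin n → MvPolynomial (Fin n) k := fun j => E σ j X (Polynomial.derivative (h j)) with hF
  set cb : s → Fin n → MvPolynomial (Fin n) k := fun b j => -E σ j X (G j b) with hcb
  set f : MvPolynomial (Fin n) k := ∏ j, F j with hf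
  set e : s → Fin n → MvPolynomial (Fin n) k :=
    fun b j => cb b j * ∏ i ∈ Finset.univ.erase j, F i with he
  set zz : Fin (n + 1) → MvPolynomial (Fin n) k := Fin.cons 1 X with hzz
  set w : Zv n → MvPolynomial s A := fun ij =>
    C (Ideal.Quotient.mk Q (zz ij.1)) * ∑ b, C (Ideal.Quotient.mk Q (e b ij.2)) * X b with hw
  have hw1 : ∀ ij, (w ij).IsHomogeneous 1 := by
    intro ij
    rw [hw]
    have h1 : (∑ b, C (Ideal.Quotient.mk Q (e b ij.2)) * X b : MvPolynomial s A).IsHomogeneous 1 := by
      refine IsHomogeneous.sum _ _ _ fun b _ => ?_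
      have := (isHomogeneous_C s (Ideal.Quotient.mk Q (e b ij.2))).mul (isHomogeneous_X A b)
      simpa using this
    have := (isHomogeneous_C s (Ideal.Quotient.mk Q (zz ij.1))).mul h1
    simpa using this
  set φ : MvPolynomial (Zv n) k →ₐ[k] MvPolynomial s A := aeval w with hφ
  have hfQ : f ∉ Q := by
    rw [hf, hQ.prod_mem_iff]
    rintro ⟨j, -, hj⟩
    exact hh2 j hj
  refine ⟨f, RingHom.ker φ, hfQ, RingHom.ker_isPrime φ.toRingHom, ker_homog w hw1, ?_, ?_, ?_⟩
  · intro i i' j j'
    rw [RingHom.mem_ker]
    simp only [hφ, map_sub, map_mul, aeval_X, hw]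
    ring
  · have h1 : Algebra.trdeg k (MvPolynomial (Zv n) k ⧸ RingHom.ker φ) ≤
        Algebra.trdeg k (MvPolynomial s A) :=
      trdeg_le_of_injective (Ideal.kerLiftAlg φ) (Ideal.kerLiftAlg_injective φ)
    have h2 : Algebra.trdeg k A + Algebra.trdeg A (MvPolynomial s A) =
        Algebra.trdeg k (MvPolynomial s A) := trdeg_add_eq k A
    have h3 : Algebra.trdeg A (MvPolynomial s A) = Algebra.trdeg k A := by
      rw [MvPolynomial.trdeg_of_isDomain, Cardinal.lift_id, Cardinal.mk_fintype, hcard]
    rw [h3] at h2
    refine h1.trans ?_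
    rw [← h2]
    push_cast
    rw [two_mul]
    exact add_le_add hr hr
  · intro K _ _ D y hy hfy g hg
    have hE : ∀ (j : Fin n) (p : Polynomial (MvPolynomial s k)),
        E σ j y p = aeval y (E σ j (X : Fin n → MvPolynomial (Fin n) k) p) := by
      intro j p
      have h1 := E_map σ j (X : Fin n → MvPolynomial (Fin n) k)
        (aeval y : MvPolynomial (Fin n) k →ₐ[k] K) p
      simp only [aeval_X] at h1
      exact h1.symm
    have h0 : ∀ j, aeval y (F j) * D (y j) = ∑ b, aeval y (cb b j) * D (y (σ b)) := by
      intro j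
      have h1 := hG j K D y
      simp only [hE] at h1
      rw [hy _ (hh1 j), map_zero] at h1
      simp only [hcb, map_neg, neg_mul, Finset.sum_neg_distrib]
      linear_combination -h1
    have h2 : ∀ j, aeval y f * D (y j) = ∑ b, aeval y (e b j) * D (y (σ b)) := by
      intro j
      rw [hf, ← Finset.mul_prod_erase Finset.univ F (Finset.mem_univ j), map_mul, mul_assoc,
        mul_comm (aeval y (∏ i ∈ Finset.univ.erase j, F i)) (D (y j)), ← mul_assoc, h0 j,
        Finset.sum_mul]
      refine Finset.sum_congr rfl fun b _ => ?_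
      rw [he]
      simp only [map_mul]
      ring
    let ψ0 : A →ₐ[k] K := Ideal.Quotient.liftₐ Q (aeval y) hy
    have hψ0 : ∀ p, ψ0 (Ideal.Quotient.mk Q p) = aeval y p := fun p => rfl
    let ψ : MvPolynomial s A →+* K := eval₂Hom ψ0.toRingHom (fun b => D (y (σ b)))
    have hψ : ∀ p : MvPolynomial (Zv n) k, ψ (φ p) =
        aeval (fun ij => aeval y f * lift y D ij) p := by
      intro p
      have h3 : ψ.comp φ.toRingHom =
          (aeval (fun ij => aeval y f * lift y D ij) : MvPolynomial (Zv n) k →ₐ[k] K).toRingHom := by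
        refine MvPolynomial.ringHom_ext ?_ ?_
        · intro c
          simp only [RingHom.comp_apply]
          have h8 : φ.toRingHom (C c) = C (Ideal.Quotient.mk Q (C c)) := by
            change φ (C c) = _
            rw [hφ, aeval_C, IsScalarTower.algebraMap_apply k A (MvPolynomial s A)]
            rfl
          rw [h8]
          change ψ (C _) = _
          simp only [ψ, coe_eval₂Hom, eval₂_C]
          change ψ0 _ = _
          rw [hψ0]
          simp
        · intro ij
          simp only [RingHom.comp_apply]
          have h8 : φ.toRingHom (X ij) = w ij := aeval_X w ij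
          rw [h8]
          have h9 : ∀ a : A, ψ (C a) = ψ0 a := fun a => by
            simp only [ψ, coe_eval₂Hom, eval₂_C]; rfl
          have h10 : ∀ b : s, ψ (X b) = D (y (σ b)) := fun b => by
            simp only [ψ, coe_eval₂Hom, eval₂_X]
          have h11 : (aeval (fun ij => aeval y f * lift y D ij) :
              MvPolynomial (Zv n) k →ₐ[k] K).toRingHom (X ij) = aeval y f * lift y D ij :=
            aeval_X _ ij
          rw [h11, hw]
          simp only [map_mul, map_sum, h9, h10, hψ0, ← h2, lift, seg]
          have h12 : aeval y (zz ij.1) = xx y ij.1 := by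
            rw [hzz, xx]
            refine Fin.cases ?_ (fun i => ?_) ij.1
            · simp
            · simp
          rw [h12]
          ring
      exact congrArg (fun q : MvPolynomial (Zv n) k →+* K => q p) h3
    have h4 : ∀ N, aeval (lift y D) (homogeneousComponent N g) = 0 := by
      intro N
      have h5 : φ (homogeneousComponent N g) = 0 := ker_homog w hw1 g hg N
      have h6 := hψ (homogeneousComponent N g)
      rw [h5, map_zero, aeval_smul_homog _ _ (homogeneousComponent_isHomogeneous N g)] at h6
      rcases mul_eq_zero.mp h6.symm with h7 | h7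
      · exact absurd (pow_ne_zero N hfy) (by simpa using h7)
      · exact h7
    rw [← sum_homogeneousComponent g, map_sum]
    exact Finset.sum_eq_zero fun N _ => h4 N

end Pool.Agent.H92.AV
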